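import Pool.Agent.H.MP_09df17_pr.A
import Pool.Agent.Lib.helper3.MC

namespace Pool.Agent.Results.MP_09df17_pr.Cover

open MeasureTheory ProbabilityTheory Filter Topology Pool.Agent.H.MP_09df17_pr
open scoped ENNReal

def walk {W : Type} (x : W) (ω : ℕ → W → W) : ℕ → W
  | 0 => x
  | t + 1 => ω t (walk x ω t)

def Harm {W : Type} (Γ : SimpleGraph W) [Γ.LocallyFinite] (f : W → ℝ) : Prop :=
  (∃ C, ∀ v, |f v| ≤ C) ∧ ∀ v, f v = (∑ w ∈ Γ.neighborFinset v, f w) / Γ.degree v

section

local instance ms : MeasurableSpace V := ⊤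

lemma deg_pos (v : V) : 0 < G.degree v := by
  obtain ⟨l, _ | ⟨b, y⟩⟩ := v
  · simp [deg_nil]
  · simp [deg_cons]

instance pr (v : V) : IsProbabilityMeasure (uniformOn (G.neighborSet v)) :=
  isProbabilityMeasure_uniformOn (Set.toFinite _)
    ((G.degree_pos_iff_exists_adj v).mp (deg_pos v))

noncomputable abbrev P : Measure (ℕ → V → V) :=
  Measure.infinitePi fun _ => Measure.infinitePi fun v => uniformOn (G.neighborSet v)

lemma walk_meas (x : V) (t : ℕ) : Measurable fun ω => walk x ω t := by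
  induction t with
  | zero => exact measurable_const
  | succ t ih =>
    exact (measurable_from_prod_countable_right (f := fun z : V × (V → V) => z.2 z.1)
      fun v => measurable_pi_apply v).comp (ih.prodMk (measurable_pi_apply t))

lemma step (x : V) (t : ℕ) (f : V → V → ℝ≥0∞) :
    ∫⁻ ω, f (walk x ω t) (walk x ω (t + 1)) ∂P =
      ∫⁻ ω, (∑ w ∈ G.neighborFinset (walk x ω t), f (walk x ω t) w) / G.degree (walk x ω t) ∂P := by
  refine (Lib.helper3.MC.indep_past _ t (fun ω => walk x ω t) (walk_meas x t) (fun ω ω' h => ?_)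
    (fun z => f z.1 (z.2 z.1)) (measurable_from_prod_countable_right fun v =>
      (measurable_from_top (f := f v)).comp (measurable_pi_apply v))).trans
      (lintegral_congr fun ω => ?_)
  · induction t with
    | zero => rfl
    | succ t ih => rw [walk, walk, ih fun i hi => h i (by omega), h t (by omega)]
  generalize walk x ω t = v
  rw [← lintegral_map (f := f v) measurable_from_top (measurable_pi_apply v),
    Measure.infinitePi_map_eval,
    uniformOn, ProbabilityTheory.cond, lintegral_smul_measure, ← G.coe_neighborFinset, lintegral_finset,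
    Measure.count_apply_finset, ENNReal.div_eq_inv_mul]
  simp

noncomputable def pot (v : V) : ℝ≥0∞ := ENNReal.ofReal ((1 / 2) ^ v.2.length)

def jump (v w : V) : Prop := G.Adj v w ∧ w.1 ≠ v.1

lemma avg_le (v : V) (f : V → ℝ) (c : ℝ) (hf : ∀ w, 0 ≤ f w)
    (h : ∑ w ∈ G.neighborFinset v, f w ≤ c * G.degree v) :
    (∑ w ∈ G.neighborFinset v, ENNReal.ofReal (f w)) / G.degree v ≤ ENNReal.ofReal c := by
  have : (0 : ℝ) < G.degree v := by exact_mod_cast deg_pos v
  rw [← ENNReal.ofReal_sum_of_nonneg fun w _ => hf w, ← ENNReal.ofReal_natCast,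
    ← ENNReal.ofReal_div_of_pos this]
  exact ENNReal.ofReal_le_ofReal ((div_le_iff₀ this).mpr h)

lemma pot_le (x : V) (t : ℕ) : ∫⁻ ω, pot (walk x ω t) ∂P ≤ ENNReal.ofReal ((7 / 8) ^ t) := by
  induction t with
  | zero =>
    simp only [walk, lintegral_const, measure_univ, mul_one]
    exact ENNReal.ofReal_le_ofReal (pow_le_one₀ (by norm_num) (by norm_num))
  | succ t ih =>
    rw [step x t fun _ w => pot w, pow_succ', ENNReal.ofReal_mul (by norm_num)]
    refine le_trans ?_ (mul_le_mul_right ih _)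
    rw [← lintegral_const_mul' _ _ ENNReal.ofReal_ne_top]
    refine lintegral_mono fun ω => ?_
    generalize walk x ω t = v
    rw [pot, ← ENNReal.ofReal_mul (by norm_num)]
    refine avg_le v _ _ (fun _ => by positivity) ?_
    obtain ⟨l, _ | ⟨b, y⟩⟩ := v
    · rw [sum_nbr, sum_L _ (1 / 2) _ fun y hy => by simp [hy], deg_nil]
      norm_num [Dn]
    · rw [sum_nbr, sum_Dn, sum_L _ ((1 / 2) ^ (y.length + 2)) _ fun y hy => by simp [hy],
        sum_L _ ((1 / 2) ^ y.length) _ fun y hy => by simp [hy], deg_cons]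
      have h1 : (2 : ℝ) ^ y.length * (1 / 2) ^ y.length = 1 := by rw [← mul_pow]; simp
      have h2 : (1 / 2 : ℝ) ^ y.length ≤ 1 := pow_le_one₀ (by norm_num) (by norm_num)
      simp only [List.length_cons, pow_succ]
      push_cast
      nlinarith

open Classical in
lemma jump_le (x : V) (t : ℕ) :
    ∫⁻ ω, ENNReal.ofReal (if jump (walk x ω t) (walk x ω (t + 1)) then 0 else 1) ∂P ≤
      ∫⁻ ω, 2 * pot (walk x ω t) ∂P := by
  rw [step x t fun v w => ENNReal.ofReal (if jump v w then 0 else 1)]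
  refine lintegral_mono fun ω => ?_
  generalize walk x ω t = v
  rw [pot, ← ENNReal.ofReal_ofNat, ← ENNReal.ofReal_mul (by norm_num)]
  refine avg_le v _ _ (fun _ => by positivity) ?_
  rw [Finset.sum_congr rfl (g := fun w => if w.1 = v.1 then 1 else 0) fun w hw => by
    simp [jump, (G.mem_neighborFinset _ _).mp hw]]
  obtain ⟨l, _ | ⟨b, y⟩⟩ := v
  · rw [sum_nbr, deg_nil]
    norm_num [Dn, dl_ne]
  · rw [sum_nbr, sum_Dn, deg_cons]
    have h1 : (2 : ℝ) ^ y.length * (1 / 2) ^ y.length = 1 := by rw [← mul_pow]; simp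
    have h2 : 0 ≤ (1 / 2 : ℝ) ^ y.length := by positivity
    simp only [List.length_cons, pow_succ, sub_eq_self, dl_ne, add_eq_left, if_true, if_false,
      Finset.sum_const_zero]
    push_cast
    nlinarith

lemma ivt (a : ℕ → ℕ) (h : ∀ t, a (t + 1) ≤ a t + 1) (n s : ℕ) (h0 : a 0 ≤ n) (h1 : n ≤ a s) :
    ∃ t, a t = n := by
  induction s with
  | zero => exact ⟨0, by omega⟩
  | succ s ih =>
    by_cases e : n ≤ a s
    · exact ih e
    · exact ⟨s + 1, by have := h s; omega⟩

lemma visits (x : V) : ∀ᵐ ω ∂P, ∀ k : ℤ, ∃ᶠ t in atTop, (walk x ω t).1 = k := by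
  classical
  have hm : ∀ t, Measurable fun ω => pot (walk x ω t) +
      ENNReal.ofReal (if jump (walk x ω t) (walk x ω (t + 1)) then 0 else 1) := fun t =>
    (Measurable.of_discrete (f := fun z : V × V => pot z.1 +
      ENNReal.ofReal (if jump z.1 z.2 then 0 else 1))).comp
        ((walk_meas x t).prodMk (walk_meas x (t + 1)))
  filter_upwards [ae_lt_top (μ := P) (Measurable.ennreal_tsum hm) (by
    rw [lintegral_tsum fun t => (hm t).aemeasurable]
    refine ne_top_of_le_ne_top ((summable_geometric_of_lt_one (r := 7 / 8) (by norm_num)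
      (by norm_num)).mul_left 3).tsum_ofReal_ne_top (ENNReal.tsum_le_tsum fun t => ?_)
    rw [lintegral_add_left (f := fun ω => pot (walk x ω t))
      ((measurable_from_top (f := pot)).comp (walk_meas x t))]
    refine (add_le_add (pot_le x t) ((jump_le x t).trans ((lintegral_const_mul' _ _ (by simp)).trans_le
      (mul_le_mul_right (pot_le x t) _)))).trans_eq ?_
    rw [ENNReal.ofReal_mul (by norm_num), ← one_add_mul]
    norm_num)] with ω hω k
  have h1 := ENNReal.tendsto_atTop_zero_of_tsum_ne_top hω.ne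
  obtain ⟨T, hT⟩ := eventually_atTop.mp (h1.eventually (gt_mem_nhds zero_lt_one))
  have h2 : ∀ t ≥ T, jump (walk x ω t) (walk x ω (t + 1)) := fun t ht => by
    by_contra hc
    simpa [hc] using le_add_self.trans_lt (hT t ht)
  have h3 : ∀ t ≥ T, (walk x ω (t + 1)).2.length ≤ (walk x ω t).2.length + 1 ∧
      (walk x ω (t + 1)).1 + sg (walk x ω (t + 1)).2.length =
        (walk x ω t).1 + sg (walk x ω t).2.length := fun t ht => by
    obtain ⟨⟨a, b | b⟩ | ⟨a, b | b⟩, c⟩ := h2 t ht
    · exact absurd b.1 c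
    · rw [a, b, sg_succ]
      omega
    · exact absurd b.1.symm c
    · rw [a, b, sg_succ]
      omega
  refine frequently_atTop.mpr fun S => ?_
  obtain ⟨n, hn, h4⟩ := sg_surj ((walk x ω (T + S)).1 + sg (walk x ω (T + S)).2.length - k)
    (walk x ω (T + S)).2.length
  obtain ⟨s, hs⟩ := eventually_atTop.mp (h1.eventually (gt_mem_nhds
    (show 0 < ENNReal.ofReal ((1 / 2) ^ n) by simp)))
  obtain ⟨t, ht⟩ := ivt (fun t => (walk x ω (T + S + t)).2.length)
    (fun t => (h3 (T + S + t) (by omega)).1) n s hn (by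
      have := le_self_add.trans_lt (hs (T + S + s) (by omega))
      rw [pot, ENNReal.ofReal_lt_ofReal_iff (by positivity),
        pow_lt_pow_iff_right_of_lt_one₀ (by norm_num) (by norm_num)] at this
      exact this.le)
  refine ⟨T + S + t, by omega, ?_⟩
  have h5 : ∀ t, (walk x ω (T + S + t)).1 + sg (walk x ω (T + S + t)).2.length =
      (walk x ω (T + S)).1 + sg (walk x ω (T + S)).2.length := fun t => by
    induction t with
    | zero => rfl
    | succ t ih => rw [← add_assoc, (h3 _ (by omega)).2, ih]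
  have := h5 t
  rw [ht] at this
  omega

end

theorem result : ∃ (W : Type) (Γ : SimpleGraph W) (_ : Γ.LocallyFinite) (_ : AddAction ℤ W)
    (D : Set W), Γ.Connected ∧ (∀ (k : ℤ) x y, Γ.Adj x y → Γ.Adj (k +ᵥ x) (k +ᵥ y)) ∧
    (∀ (k : ℤ) (x : W), k +ᵥ x = x → k = 0) ∧
    (∀ f, Harm Γ f → (∀ (k : ℤ) x, f (k +ᵥ x) = f x) → ∀ x y, f x = f y) ∧
    (∀ x, ∃! y, y ∈ D ∧ ∃ k : ℤ, k +ᵥ y = x) ∧ (Γ.induce D).Connected ∧
    (∀ (k : ℤ), ∀ x ∈ D, ∀ y ∈ D, Γ.Adj x (k +ᵥ y) → |k| ≤ 1) ∧
    (letI : MeasurableSpace W := ⊤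
     (∀ v, IsProbabilityMeasure (uniformOn (Γ.neighborSet v))) ∧
     ∀ x, ∀ᵐ ω ∂(Measure.infinitePi fun _ : ℕ => Measure.infinitePi fun v =>
        uniformOn (Γ.neighborSet v)), ∀ k : ℤ, ∃ᶠ t in atTop, ∃ y ∈ D, walk x ω t = k +ᵥ y) ∧
    ∃ f, Harm Γ f ∧ ∃ x y, f x ≠ f y := by
  let A : AddAction ℤ V :=
    { vadd k v := (k + v.1, v.2)
      zero_vadd v := Prod.ext (zero_add _) rfl
      add_vadd k l v := Prod.ext (add_assoc _ _ _) rfl }
  refine ⟨V, G, inferInstance, A, {v | v.1 = 0}, conn, fun k x y h => ?_, fun k x h => ?_,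
    fun f ⟨⟨C, hC⟩, hf⟩ hi x y => ?_, fun x => ⟨(0, x.2), ⟨rfl, x.1, Prod.ext (add_zero _) rfl⟩, ?_⟩,
    connD, fun k x hx y hy h => ?_, ⟨pr, fun x => (visits x).mono fun ω h k => (h k).mono
      fun t ht => ⟨(0, (walk x ω t).2), rfl, Prod.ext (ht.trans (add_zero k).symm) rfl⟩⟩,
    h, ⟨⟨_, h_bd⟩, h_harm⟩, (0, []), (0, [true]), by simp [h, g]⟩
  · change up (k + x.1, x.2) (k + y.1, y.2) ∨ up (k + y.1, y.2) (k + x.1, x.2)
    simp only [G, up] at h ⊢
    grind
  · simpa using congrArg Prod.fst (show (k + x.1, x.2) = x from h)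
  · have := liou f C hC (fun l x => by
      simpa using (show f (l + 0, x) = f (0, x) from hi l (0, x))) hf
    rw [this x, this y]
  · rintro y ⟨h1, k, rfl⟩
    exact Prod.ext h1 rfl
  · change up x (k + y.1, y.2) ∨ up (k + y.1, y.2) x at h
    have := dl_cases x.2.length
    have := dl_cases y.2.length
    simp only [up, Set.mem_ofPred_eq, abs_le] at h hx hy ⊢
    omega

end Pool.Agent.Results.MP_09df17_pr.Cover
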